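import Pool.Agent.PFC.StmtsB6

/-!
# Row UNT of squad PFC (MP_6a3f1a_al)
-/

set_option autoImplicit false

open scoped BigOperators

noncomputable section

namespace Pool.Agent.PFC.H62

open Pool.Agent.Helper51_AWC Pool.Agent.Helper79_WRA Pool.Agent.PP Pool.Agent.PP.KF
open Pool.Agent.PP.K9 Pool.Agent.PP.K9.H97 Pool.Agent.PP.H75 Pool.Agent.PP.T3 Pool.Agent.PP.T2
open Pool.Agent.PP.T8 (Fr rs pw)

attribute [local instance] Ideal.Quotient.field

section gen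

variable {F G : Type} [Field F] [Group G] [Finite G]

theorem dl_cj (t : G) (j : G → F) : mulF (dl F t) j = mulF (H75.cj t j) (dl F t) := by
  rw [mulF_dl_l, mulF_dl_r]
  funext y
  unfold H75.cj
  congr 1
  group

theorem dl_one_mul (x : G → F) : mulF (dl F (1 : G)) x = x := by
  rw [mulF_dl_l]
  funext y
  simp

theorem mul_dl_one (x : G → F) : mulF x (dl F (1 : G)) = x := by
  rw [mulF_dl_r]
  funext y
  simp

theorem dl_inv_cj (t : G) (j : G → F) :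
    mulF j (dl F t⁻¹) = mulF (dl F t⁻¹) (H75.cj t j) := by
  have h := dl_cj t j
  have h1 : mulF (dl F t⁻¹) (mulF (mulF (dl F t) j) (dl F t⁻¹)) = mulF j (dl F t⁻¹) := by
    rw [← H20.mulF_assoc, ← H20.mulF_assoc, dl_mul, inv_mul_cancel, dl_one_mul]
  rw [← h1, h, H20.mulF_assoc (H75.cj t j), dl_mul, mul_inv_cancel, mul_dl_one]

end gen

theorem unt (cjj : CjjStmt) (jcj : JcjStmt) : UntStmt := by
  intro ℓ _ M _ hM G _ _ e V γ hL j hJ W _ _ ι hι hιV hj hv t ht s hs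
  obtain ⟨a, b, ha, hb, ha1, ha2, hb1, hb2, hab, hba⟩ :=
    cjj ℓ M hM G e V γ hL j (H75.cj t j) hJ (jcj ℓ M hM G e V γ hL j hJ t ht)
  have hy1 : mulF j (mulF a (dl (FF M) t)) = mulF a (dl (FF M) t) := by
    rw [← H20.mulF_assoc, ha1]
  have hy2 : mulF (mulF a (dl (FF M) t)) j = mulF a (dl (FF M) t) := by
    rw [H20.mulF_assoc, dl_cj, ← H20.mulF_assoc, ha2]
  have hz1 : mulF j (mulF (dl (FF M) t⁻¹) b) = mulF (dl (FF M) t⁻¹) b := by
    rw [← H20.mulF_assoc, dl_inv_cj, H20.mulF_assoc, hb1]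
  have hz2 : mulF (mulF (dl (FF M) t⁻¹) b) j = mulF (dl (FF M) t⁻¹) b := by
    rw [H20.mulF_assoc, hb2]
  refine ⟨mkc hj (mulF a (dl (FF M) t)) ⟨hy1, hy2⟩, mkc hj (mulF (dl (FF M) t⁻¹) b) ⟨hz1, hz2⟩,
    ?_, ?_, ?_⟩
  · apply cv_inj
    rw [cv_mul, cv_mkc, cv_mkc, cv_one, H20.mulF_assoc, ← H20.mulF_assoc (dl (FF M) t), dl_mul,
      mul_inv_cancel, dl_one_mul, hab]
  · apply cv_inj
    rw [cv_mul, cv_mkc, cv_mkc, cv_one, H20.mulF_assoc, ← H20.mulF_assoc b, hba, ← dl_cj,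
      ← H20.mulF_assoc, dl_mul, inv_mul_cancel, dl_one_mul]
  · intro w
    apply cv_inj
    rw [cv_mul, cv_mul, cv_mkc, cv_jal, cv_jal, H20.mulF_assoc (dl (FF M) (ι (s w))), hy1]
    have h1 : ∀ x, a (ι (s w) * x * (ι (s w))⁻¹) = a x := by
      intro x
      exact ha _ (hιV ▸ ⟨s w, rfl⟩) x
    calc mulF (mulF a (dl (FF M) t)) (mulF (dl (FF M) (ι w)) j)
        = mulF a (mulF (mulF (dl (FF M) t) (dl (FF M) (ι w))) j) := by
          rw [H20.mulF_assoc, H20.mulF_assoc]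
      _ = mulF a (mulF (mulF (dl (FF M) (ι (s w))) (dl (FF M) t)) j) := by
          rw [dl_mul, dl_mul, hs]
          congr 3
          group
      _ = mulF (mulF (dl (FF M) (ι (s w))) a) (mulF (dl (FF M) t) j) := by
          rw [dl_comm h1, H20.mulF_assoc, H20.mulF_assoc]
      _ = mulF (dl (FF M) (ι (s w))) (mulF (mulF a (dl (FF M) t)) j) := by
          rw [H20.mulF_assoc, H20.mulF_assoc]
      _ = mulF (dl (FF M) (ι (s w))) (mulF a (dl (FF M) t)) := by rw [hy2]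

end Pool.Agent.PFC.H62
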