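import Pool.Agent.PFC.StmtsB4b

/-!
# Row QMX of squad PFC (MP_6a3f1a_al)
-/

set_option autoImplicit false

open scoped BigOperators TensorProduct

noncomputable section

namespace Pool.Agent.PFC.H62

/-- a field is the algebra of `1 × 1` matrices -/
def fieldMat (F : Type) [Field F] : F ≃ₐ[F] Matrix (Fin 1) (Fin 1) F :=
  AlgEquiv.ofBijective (Algebra.ofId F (Matrix (Fin 1) (Fin 1) F)) (by
    refine ⟨?_, ?_⟩
    · intro a b hab
      have h := congrFun (congrFun hab 0) 0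
      simpa [Algebra.ofId_apply, Matrix.algebraMap_matrix_apply] using h
    · intro M
      refine ⟨M 0 0, ?_⟩
      ext i j
      rw [Subsingleton.elim i 0, Subsingleton.elim j 0]
      simp [Algebra.ofId_apply, Matrix.algebraMap_matrix_apply])

theorem qmx : QmxStmt := by
  intro F V _ _
  refine ⟨?_, ?_, ?_⟩
  · rintro X Y ⟨n, hn, ⟨e⟩⟩ ⟨m, hm, ⟨f⟩⟩
    refine ⟨m * n, Nat.mul_pos hm hn, ⟨?_⟩⟩
    exact (((Algebra.TensorProduct.congr e f).trans
      (matrixEquivTensor (Fin m) F (Matrix (Fin n) (Fin n) F)).symm).trans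
        (Matrix.compAlgEquiv (Fin m) (Fin n) F F)).trans
          (Matrix.reindexAlgEquiv F F finProdFinEquiv)
  · rintro X ⟨n, hn, ⟨e⟩⟩
    refine ⟨n, hn, ⟨?_⟩⟩
    exact (AlgEquiv.op e).trans (Matrix.transposeAlgEquiv (Fin n) F F).symm
  · exact ⟨1, Nat.one_pos, ⟨fieldMat F⟩⟩

end Pool.Agent.PFC.H62
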