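import Pool.Agent.PFC.StmtsB5a

/-!
# Row SPG (SPGa) of squad PFC, block B5a (MP_6a3f1a_al)
-/

set_option autoImplicit false

open scoped BigOperators TensorProduct

noncomputable section

namespace Pool.Agent.PFC.B5a.H62

/-- The element does not depend on the dual bases. -/
theorem move {F A : Type} [Field F] [Ring A] [Algebra F A] (mu : A →ₗ[F] F) (al : A →ₗ[F] A)
    {m : ℕ} (b b' : Fin m → A) (h1 : Du F mu b b') (h2 : ∀ x, ∑ k, mu (x * b k) • b' k = x)
    (s : A) : ∑ k, al (s * b k) * b' k = (∑ k, al (b k) * b' k) * s := by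
  have e1 : ∀ k, al (s * b k) * b' k = ∑ j, mu (b' j * s * b k) • (al (b j) * b' k) := by
    intro k
    conv_lhs => rw [← h1 (s * b k)]
    rw [map_sum, Finset.sum_mul]
    refine Finset.sum_congr rfl fun j _ => ?_
    rw [map_smul, smul_mul_assoc, mul_assoc]
  rw [Finset.sum_congr rfl fun k _ => e1 k, Finset.sum_comm, Finset.sum_mul]
  refine Finset.sum_congr rfl fun j _ => ?_
  rw [mul_assoc, ← h2 (b' j * s), Finset.mul_sum]
  refine Finset.sum_congr rfl fun k _ => ?_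
  rw [mul_smul_comm, h2 (b' j * s)]

/-- The map `y ↦ ∑ γ g * al (γ g⁻¹ * y)`. -/
def al1 {F A Γ : Type} [Field F] [Ring A] [Algebra F A] [Group Γ] [Fintype Γ] (γ : Γ →* A)
    (al : A →ₗ[F] A) : A →ₗ[F] A :=
  ∑ g, (LinearMap.mulLeft F (γ g)).comp (al.comp (LinearMap.mulLeft F (γ g⁻¹)))

theorem al1_apply {F A Γ : Type} [Field F] [Ring A] [Algebra F A] [Group Γ] [Fintype Γ]
    (γ : Γ →* A) (al : A →ₗ[F] A) (y : A) : al1 γ al y = ∑ g, γ g * al (γ g⁻¹ * y) := by
  unfold al1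
  rw [LinearMap.sum_apply]
  rfl

theorem spg : SpgStmt := by
  intro bki fdb cas uns F V E A _ _ _ _ _ _ _ _ _ φ _ γ mu lam c' al hsym hnd hci hE hal hloc h1
  obtain ⟨m, b, b', hb, hb'⟩ := fdb F A mu hsym hnd
  have hal1 : ∀ x, ∑ h, al1 γ al (x * γ h⁻¹) * γ h = x - Ee F γ mu x * c' := by
    intro x
    rw [hE, ← cpr, ← hal x, Finset.sum_comm]
    refine Finset.sum_congr rfl fun h _ => ?_
    rw [al1_apply, Finset.sum_mul]
    refine Finset.sum_congr rfl fun g _ => ?_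
    rw [← mul_assoc (γ g⁻¹)]
  have hcsm := cas F (V ⋊[φ] E) A γ mu c' (al1 γ al) m b b' hsym hnd hci hal1 hb
  set w₀ : A := ∑ k, al (b k) * b' k with hw₀
  set w₁ : A := ∑ e : E, γ (SemidirectProduct.inr e) * w₀ * γ (SemidirectProduct.inr e)⁻¹ with hw₁
  have hw : ∑ k, al1 γ al (b k) * b' k = ∑ g, γ g * w₀ * γ g⁻¹ := by
    have e1 : ∀ k, al1 γ al (b k) * b' k = ∑ g, γ g * (al (γ g⁻¹ * b k) * b' k) := by
      intro k
      rw [al1_apply, Finset.sum_mul]
      refine Finset.sum_congr rfl fun g _ => ?_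
      rw [mul_assoc]
    rw [Finset.sum_congr rfl fun k _ => e1 k, Finset.sum_comm]
    refine Finset.sum_congr rfl fun g _ => ?_
    rw [← Finset.mul_sum, move mu al b b' hb hb', mul_assoc]
  have hw2 : ∑ g, γ g * w₀ * γ g⁻¹ =
      ∑ v : V, cj F (γ.comp (SemidirectProduct.inl : V →* V ⋊[φ] E)) v w₁ := by
    rw [← (SemidirectProduct.equivProd (φ := φ)).symm.sum_comp, Fintype.sum_prod_type]
    refine Finset.sum_congr rfl fun v _ => ?_
    have e2 : cj F (γ.comp (SemidirectProduct.inl : V →* V ⋊[φ] E)) v w₁ =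
        γ (SemidirectProduct.inl v) * (w₁ * γ (SemidirectProduct.inl v⁻¹)) := rfl
    rw [e2, hw₁, Finset.sum_mul, Finset.mul_sum]
    refine Finset.sum_congr rfl fun e _ => ?_
    have e3 : (SemidirectProduct.equivProd (φ := φ)).symm (v, e) =
        SemidirectProduct.inl v * SemidirectProduct.inr e :=
      (SemidirectProduct.inl_left_mul_inr_right
        ((SemidirectProduct.equivProd (φ := φ)).symm (v, e))).symm
    rw [e3, map_mul, mul_inv_rev, map_mul, ← map_inv SemidirectProduct.inl]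
    simp only [mul_assoc]
  refine uns bki F (V ⋊[φ] E) V A γ (γ.comp (SemidirectProduct.inl : V →* V ⋊[φ] E)) _ _ _ c'
    (Ee F γ mu 1) hcsm ?_ hci.lin hci.rin (fun g => hci.com _) hloc h1
  rw [Fintype.sum_option]
  show c' * 1 + ∑ k, al1 γ al (b k) * b' k - c' ∈ _
  rw [mul_one, add_sub_cancel_left, hw, hw2]
  refine Submodule.subset_span ⟨⊥, Finset.univ, w₁, bot_lt_top, ?_, ?_, rfl⟩
  · refine ⟨fun s _ => Subgroup.mem_top s, fun p _ => ⟨p, ⟨Finset.mem_univ _, ?_⟩, ?_⟩⟩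
    · rw [inv_mul_cancel]
      exact Subgroup.one_mem _
    · rintro s ⟨_, hs⟩
      rw [Subgroup.mem_bot] at hs
      exact (inv_mul_eq_one.1 hs)
  · intro h hh
    rw [Subgroup.mem_bot.1 hh, map_one]
    rfl

end Pool.Agent.PFC.B5a.H62
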